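import Pool.Agent.H24.P35.Targets

/-!
# MP_35c1fe_nt, row CNJ
-/

set_option autoImplicit false

namespace Pool.Agent.H24.P35

open Finset Filter Pool.Agent.H88.PD

theorem pf_CNJ : T_CNJ := by
  classical
  intro S L J
  have h1 : ∑ j ∈ Icc 1 J, cn S L (j * L) =
      ((Icc 1 J).sigma (fun j => (((S ×ˢ range L) ×ˢ (S ×ˢ range L)).filter
        (fun p => p.2.1 + p.1.2 = p.1.1 + p.2.2 + j * L)))).card := by
    rw [card_sigma]
    rfl
  rw [h1]
  have h2 : ((S ×ˢ S) ×ˢ range L).card = L * S.card ^ 2 := by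
    rw [card_product, card_product, card_range]
    ring
  rw [← h2]
  apply card_le_card_of_injOn (fun x => ((x.2.1.1, x.2.2.1), x.2.1.2))
  · rintro ⟨j, ⟨⟨s, t⟩, ⟨s', t'⟩⟩⟩ hx
    rw [mem_coe, mem_sigma, mem_filter, mem_product, mem_product, mem_product] at hx
    rw [mem_coe, mem_product, mem_product]
    exact ⟨⟨hx.2.1.1.1, hx.2.1.2.1⟩, hx.2.1.1.2⟩
  · rintro ⟨j, ⟨⟨s, t⟩, ⟨s', t'⟩⟩⟩ hx ⟨i, ⟨⟨u, v⟩, ⟨u', v'⟩⟩⟩ hy hxy
    rw [mem_coe, mem_sigma, mem_filter, mem_product, mem_product, mem_product] at hx hy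
    simp only [mem_range, Prod.mk.injEq] at hx hy hxy
    obtain ⟨⟨rfl, rfl⟩, rfl⟩ := hxy
    obtain ⟨_, ⟨_, _, ht'⟩, e1⟩ := hx
    obtain ⟨_, ⟨_, _, hv'⟩, e2⟩ := hy
    have e3 : t' + j * L = v' + i * L := by omega
    have hj : j = i := by
      have h3 := congrArg (fun z => z / L) e3
      have hL : 0 < L := by omega
      simp only [Nat.add_mul_div_right _ _ hL, Nat.div_eq_of_lt ht', Nat.div_eq_of_lt hv',
        zero_add] at h3
      exact h3
    subst hj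
    have : t' = v' := by omega
    subst this
    rfl

end Pool.Agent.H24.P35
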