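import Pool.Agent.H24.P35.Targets

/-!
# MP_35c1fe_nt, rows CNL, CN0
-/

set_option autoImplicit false

namespace Pool.Agent.H24.P35

open Finset Filter Pool.Agent.H88.PD

theorem pf_CNL : T_CNL := by
  classical
  intro S L N hLN
  have hnot : ∀ n : ℕ, 1 ≤ n → n ≤ N → n ∉ ms S N → ∃ p : ℕ × ℕ, p.1 ∈ S ∧ p.2 ∈ S ∧
      p.1 = p.2 + n := by
    intro n h1 h2 h3
    rw [ms, mem_filter, mem_Icc] at h3
    push Not at h3
    obtain ⟨a, ha, b, hb, hab⟩ := h3 ⟨h1, h2⟩
    exact ⟨(a, b), ha, hb, hab⟩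
  choose! p hp using hnot
  set R := range L ×ˢ range L with hR
  have hRc : R.card = L ^ 2 := by rw [hR, card_product, card_range]; ring
  have hsplit := card_filter_add_card_filter_not (s := R)
    (p := fun x : ℕ × ℕ => L + x.2 - x.1 ∈ ms S N)
  have hA : (R.filter (fun x : ℕ × ℕ => L + x.2 - x.1 ∈ ms S N)).card ≤ L * (ms S N).card := by
    have e : L * (ms S N).card = (range L ×ˢ ms S N).card := by rw [card_product, card_range]
    rw [e]
    apply card_le_card_of_injOn (fun x => (x.1, L + x.2 - x.1))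
    · rintro ⟨t, t'⟩ hx
      rw [mem_coe, mem_filter, hR, mem_product] at hx
      rw [mem_coe, mem_product]
      exact ⟨hx.1.1, hx.2⟩
    · rintro ⟨t, t'⟩ hx ⟨u, u'⟩ hy hxy
      rw [mem_coe, mem_filter, hR, mem_product] at hx hy
      simp only [Prod.mk.injEq, mem_range] at hx hy hxy ⊢
      omega
  have hB : (R.filter (fun x : ℕ × ℕ => ¬ L + x.2 - x.1 ∈ ms S N)).card ≤ cn S L L := by
    rw [cn]
    apply card_le_card_of_injOn
      (fun x => (((p (L + x.2 - x.1)).2, x.1), ((p (L + x.2 - x.1)).1, x.2)))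
    · rintro ⟨t, t'⟩ hx
      rw [mem_coe, mem_filter, hR, mem_product] at hx
      simp only [mem_range] at hx
      obtain ⟨e1, e2, e3⟩ := hp (L + t' - t) (by omega) (by omega) hx.2
      rw [mem_coe, mem_filter, mem_product, mem_product, mem_product]
      simp only [mem_range]
      exact ⟨⟨⟨e2, hx.1.1⟩, e1, hx.1.2⟩, by omega⟩
    · rintro ⟨t, t'⟩ hx ⟨u, u'⟩ hy hxy
      simp only [Prod.mk.injEq] at hxy ⊢
      exact ⟨hxy.1.2, hxy.2.2⟩
  omega

theorem pf_CN0 : T_CN0 := by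
  classical
  intro S L hS
  rw [cn]
  set Q := ((S ×ˢ range L) ×ˢ (S ×ˢ range L)).filter
    (fun p => p.2.1 + p.1.2 = p.1.1 + p.2.2 + 0) with hQ
  have hsplit := card_filter_add_card_filter_not (s := Q)
    (p := fun x : (ℕ × ℕ) × (ℕ × ℕ) => x.1.1 = x.2.1)
  have hA : (Q.filter (fun x => x.1.1 = x.2.1)).card ≤ S.card * L := by
    have e : S.card * L = (S ×ˢ range L).card := by rw [card_product, card_range]
    rw [e]
    apply card_le_card_of_injOn (fun x => x.1)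
    · rintro ⟨⟨s, t⟩, ⟨s', t'⟩⟩ hx
      rw [mem_coe, mem_filter, hQ, mem_filter, mem_product] at hx
      exact hx.1.1.1
    · rintro ⟨⟨s, t⟩, ⟨s', t'⟩⟩ hx ⟨⟨u, v⟩, ⟨u', v'⟩⟩ hy hxy
      rw [mem_coe, mem_filter, hQ, mem_filter] at hx hy
      simp only [Prod.mk.injEq] at hx hy hxy ⊢
      omega
  have hB : (Q.filter (fun x => ¬ x.1.1 = x.2.1)).card ≤ L ^ 2 := by
    have e : L ^ 2 = (range L ×ˢ range L).card := by rw [card_product, card_range]; ring
    rw [e]
    apply card_le_card_of_injOn (fun x => (x.1.2, x.2.2))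
    · rintro ⟨⟨s, t⟩, ⟨s', t'⟩⟩ hx
      rw [mem_coe, mem_filter, hQ, mem_filter, mem_product, mem_product, mem_product] at hx
      rw [mem_coe, mem_product]
      exact ⟨hx.1.1.1.2, hx.1.1.2.2⟩
    · rintro ⟨⟨s, t⟩, ⟨s', t'⟩⟩ hx ⟨⟨u, v⟩, ⟨u', v'⟩⟩ hy hxy
      rw [mem_coe, mem_filter, hQ, mem_filter, mem_product, mem_product, mem_product] at hx hy
      simp only [Prod.mk.injEq] at hx hy hxy ⊢
      obtain ⟨⟨⟨⟨hs, ht⟩, hs', ht'⟩, e1⟩, e2⟩ := hx
      obtain ⟨⟨⟨⟨hu, hv⟩, hu', hv'⟩, e3⟩, e4⟩ := hy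
      obtain ⟨rfl, rfl⟩ := hxy
      rcases Nat.lt_trichotomy t t' with h | h | h
      · have h1 := hS s' hs' s hs u' hu' u hu (t' - t) (by omega) (by omega) (by omega)
        omega
      · omega
      · have h1 := hS s hs s' hs' u hu u' hu' (t - t') (by omega) (by omega) (by omega)
        omega
  omega

end Pool.Agent.H24.P35
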