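import Pool.Agent.H24.P35.Targets

/-!
# MP_35c1fe_nt, row COR
-/

set_option autoImplicit false

namespace Pool.Agent.H24.P35

open Finset Filter Pool.Agent.H88.PD

theorem pf_COR : T_COR := by
  classical
  intro S L Q m _ hQ
  set P := S ×ˢ range L with hP
  have hw : ∀ y : ZMod Q, wf S L Q y =
      ∑ p ∈ P, if ((p.1 : ℕ) : ZMod Q) = y + ((p.2 : ℕ) : ZMod Q) then (1 : ℝ) else 0 := by
    intro y
    rw [wf, card_filter]
    push_cast
    rfl
  have key : ∀ p ∈ P, ∀ p' ∈ P, (∑ y : ZMod Q,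
      (if ((p.1 : ℕ) : ZMod Q) = y + ((p.2 : ℕ) : ZMod Q) then (1 : ℝ) else 0) *
      (if ((p'.1 : ℕ) : ZMod Q) = y + ((m : ℕ) : ZMod Q) + ((p'.2 : ℕ) : ZMod Q)
        then (1 : ℝ) else 0)) = if p'.1 + p.2 = p.1 + p'.2 + m then (1 : ℝ) else 0 := by
    rintro ⟨s, t⟩ hp ⟨s', t'⟩ hp'
    rw [hP, mem_product, mem_range] at hp hp'
    simp only at hp hp' ⊢
    rw [Finset.sum_eq_single ((s : ZMod Q) - (t : ZMod Q))]
    · rw [if_pos (by ring), one_mul]
      have h1 : ((s' : ZMod Q) = (s : ZMod Q) - (t : ZMod Q) + ((m : ℕ) : ZMod Q) +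
          (t' : ZMod Q)) ↔ (s' + t = s + t' + m) := by
        have e1 := hQ s hp.1
        have e2 := hQ s' hp'.1
        constructor
        · intro h
          have h2 : ((s' + t : ℕ) : ZMod Q) = ((s + t' + m : ℕ) : ZMod Q) := by
            push_cast
            rw [h]; ring
          rw [ZMod.natCast_eq_natCast_iff'] at h2
          rw [Nat.mod_eq_of_lt (by omega), Nat.mod_eq_of_lt (by omega)] at h2
          exact h2
        · intro h
          have h2 : ((s' + t : ℕ) : ZMod Q) = ((s + t' + m : ℕ) : ZMod Q) := by rw [h]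
          push_cast at h2
          linear_combination h2
      by_cases hh : s' + t = s + t' + m
      · rw [if_pos (h1.mpr hh), if_pos hh]
      · rw [if_neg (fun h => hh (h1.mp h)), if_neg hh]
    · intro y _ hy
      rw [if_neg, zero_mul]
      intro h
      apply hy
      rw [h]; ring
    · intro h
      exact absurd (mem_univ _) h
  have h1 : cor (wf S L Q) ((m : ℕ) : ZMod Q) = ∑ p ∈ P, ∑ p' ∈ P,
      if p'.1 + p.2 = p.1 + p'.2 + m then (1 : ℝ) else 0 := by
    rw [cor]
    have h2 : ∀ y : ZMod Q, wf S L Q y * wf S L Q (y + ((m : ℕ) : ZMod Q)) =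
        ∑ p ∈ P, ∑ p' ∈ P,
          (if ((p.1 : ℕ) : ZMod Q) = y + ((p.2 : ℕ) : ZMod Q) then (1 : ℝ) else 0) *
          (if ((p'.1 : ℕ) : ZMod Q) = y + ((m : ℕ) : ZMod Q) + ((p'.2 : ℕ) : ZMod Q)
            then (1 : ℝ) else 0) := by
      intro y
      rw [hw, hw, sum_mul_sum]
    rw [sum_congr rfl fun y _ => h2 y, sum_comm]
    refine sum_congr rfl fun p hp => ?_
    rw [sum_comm]
    exact sum_congr rfl fun p' hp' => key p hp p' hp'
  rw [h1, cn, card_filter]
  push_cast
  rw [← sum_product']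

end Pool.Agent.H24.P35
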