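import Pool.Agent.H24.P35.Targets

/-!
# MP_35c1fe_nt, row F3
-/

set_option autoImplicit false

namespace Pool.Agent.H24.P35

open Finset Filter Pool.Agent.H88.PD

lemma tendsto_f : Tendsto (fun N : ℕ => (N : ℝ) ^ (3 / 5 : ℝ) / Real.log N) atTop atTop := by
  have h1 : (fun x : ℝ => Real.log x) =o[atTop] (fun x : ℝ => x ^ (3 / 5 : ℝ)) :=
    isLittleO_log_rpow_atTop (by norm_num)
  have h2 : Tendsto (fun x : ℝ => Real.log x / x ^ (3 / 5 : ℝ)) atTop (nhds 0) :=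
    h1.tendsto_div_nhds_zero
  have h3 : Tendsto (fun x : ℝ => Real.log x / x ^ (3 / 5 : ℝ)) atTop (nhdsWithin 0 (Set.Ioi 0)) := by
    rw [tendsto_nhdsWithin_iff]
    refine ⟨h2, ?_⟩
    filter_upwards [eventually_gt_atTop 1] with x hx
    exact div_pos (Real.log_pos hx) (Real.rpow_pos_of_pos (by linarith) _)
  have h4 := h3.inv_tendsto_nhdsGT_zero
  have h5 : Tendsto (fun x : ℝ => x ^ (3 / 5 : ℝ) / Real.log x) atTop atTop := by
    refine h4.congr fun x => ?_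
    simp [inv_div]
  exact h5.comp tendsto_natCast_atTop_atTop

theorem pf_F3 (h1 : T_F1) : T_F3 := by
  classical
  rintro G hmono ⟨C, hC⟩ A hA
  obtain ⟨K, hK⟩ : ∃ K : ℝ, K = max C 1 := ⟨_, rfl⟩
  have hK0 : 0 < K := by rw [hK]; exact lt_of_lt_of_le one_pos (le_max_right _ _)
  have hCK : C ≤ K := by rw [hK]; exact le_max_left _ _
  refine ⟨1 / (64 * K), by positivity, ?_⟩
  rw [← Nat.frequently_atTop_iff_infinite, frequently_atTop]
  intro n₀
  have hex : ∀ d : ℕ, ∃ p : ℕ × ℕ, 1 ≤ d → p.1 ∈ A ∧ p.2 ∈ A ∧ p.1 = p.2 + d := by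
    intro d
    by_cases hd : 1 ≤ d
    · obtain ⟨p, hp, _⟩ := hA.2 d hd
      exact ⟨p, fun _ => hp⟩
    · exact ⟨(0, 0), fun h => absurd h hd⟩
  choose p hp using hex
  obtain ⟨B₀, hB₀⟩ : ∃ B₀ : ℕ, ∀ d < n₀, (p d).1 ≤ B₀ :=
    ⟨(Finset.range n₀).sup (fun d => (p d).1), fun d hd =>
      Finset.le_sup (f := fun d => (p d).1) (Finset.mem_range.mpr hd)⟩
  obtain ⟨N, hN1, hN2, hN3⟩ := (hC.and_eventually ((h1 A hA).and
    (tendsto_f.eventually_gt_atTop ((64 * (B₀ + 1) : ℝ))))).exists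
  obtain ⟨n, hn1, hnN, a, ha, b, hb, hab, han⟩ := hN2
  set f : ℝ := (N : ℝ) ^ (3 / 5 : ℝ) / Real.log N with hf
  have hf0 : 0 < f := lt_trans (by positivity) hN3
  refine ⟨n, ?_, hn1, a, ha, b, hb, hab, ?_⟩
  · by_contra hlt
    push Not at hlt
    obtain ⟨e1, e2, e3⟩ := hp n hn1
    have e4 := (pds_unique hA ha hb e1 e2 hn1 hab e3).1
    have e5 := hB₀ n hlt
    have e7 : (1 : ℝ) ≤ n := by exact_mod_cast hn1
    have e8 : (a : ℝ) ≤ B₀ := by
      rw [e4]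
      exact_mod_cast e5
    have e9 : f ≤ n * f := by nlinarith
    nlinarith
  · have f1 : G n ≤ K * f :=
      (hmono hnN).trans (hN1.trans (mul_le_mul_of_nonneg_right hCK hf0.le))
    calc 1 / (64 * K) * n * G n ≤ 1 / (64 * K) * n * (K * f) :=
          mul_le_mul_of_nonneg_left f1 (by positivity)
      _ = 1 / 64 * n * f := by field_simp
      _ ≤ a := han

end Pool.Agent.H24.P35
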