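import Pool.Agent.H24.P35.F2
import Pool.Agent.H24.P35.F3

/-!
# MP_35c1fe_nt, row F1
-/

set_option autoImplicit false

namespace Pool.Agent.H24.P35

open Finset Filter Pool.Agent.H88.PD

theorem pf_F1 (h1 : T_MAIN) (h2 : T_GAP) : T_F1 := by
  classical
  intro A hA
  have hlog : Tendsto (fun N : ℕ => Real.log N) atTop atTop :=
    Real.tendsto_log_atTop.comp tendsto_natCast_atTop_atTop
  filter_upwards [eventually_ge_atTop 8, tendsto_f.eventually_ge_atTop 64,
    hlog.eventually_ge_atTop 10] with N hN hf hl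
  by_contra hcon
  push Not at hcon
  set f : ℝ := (N : ℝ) ^ (3 / 5 : ℝ) / Real.log N with hfdef
  set y : ℝ := 1 / 64 * f with hy
  have hy1 : 1 ≤ y := by rw [hy]; linarith
  set U : ℕ := ⌈y⌉₊ with hU
  have hU1 : 1 ≤ U := Nat.one_le_ceil_iff.mpr (by linarith)
  have hyU : y ≤ U := Nat.le_ceil y
  have hU2 : (U : ℝ) ≤ 2 * y := by
    have := (Nat.ceil_lt_add_one (by linarith : (0 : ℝ) ≤ y)).le
    linarith
  have hN0 : (0 : ℝ) < N := by exact_mod_cast (by omega : 0 < N)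
  have hN1 : (1 : ℝ) ≤ N := by exact_mod_cast (by omega : 1 ≤ N)
  have hlf : Real.log N * f = (N : ℝ) ^ (3 / 5 : ℝ) := by
    rw [hfdef]; field_simp
  have hpow : (N : ℝ) ^ (3 / 5 : ℝ) ≤ N := by
    calc (N : ℝ) ^ (3 / 5 : ℝ) ≤ (N : ℝ) ^ (1 : ℝ) :=
          Real.rpow_le_rpow_of_exponent_le hN1 (by norm_num)
      _ = N := Real.rpow_one _
  have hf0 : 0 < f := by linarith
  have hUN : (U : ℝ) ≤ N := by
    have : f ≤ Real.log N * f := by nlinarith
    have h3 : 2 * y ≤ f := by rw [hy]; linarith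
    linarith
  have hpair : ∀ a ∈ A, ∀ b ∈ A, ∀ n : ℕ, 1 ≤ n → n ≤ N → a = b + n → a ≤ n * U := by
    intro a ha b hb n hn1 hn2 hab
    have h3 := hcon n hn1 hn2 a ha b hb hab
    have h4 : (a : ℝ) ≤ n * U := by
      calc (a : ℝ) ≤ 1 / 64 * n * f := h3.le
        _ = n * y := by rw [hy]; ring
        _ ≤ n * U := mul_le_mul_of_nonneg_left hyU (Nat.cast_nonneg _)
    exact_mod_cast h4
  have hex : ∀ d : ℕ, ∃ p : ℕ × ℕ, 1 ≤ d → p.1 ∈ A ∧ p.2 ∈ A ∧ p.1 = p.2 + d := by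
    intro d
    by_cases hd : 1 ≤ d
    · obtain ⟨p, hp, _⟩ := hA.2 d hd
      exact ⟨p, fun _ => hp⟩
    · exact ⟨(0, 0), fun h => absurd h hd⟩
  choose p hp using hex
  set S : Finset ℕ := (Icc 1 N).image (fun n => (p n).1) ∪ (Icc 1 N).image (fun n => (p n).2)
    with hS
  have hSA : ∀ x ∈ S, x ∈ A ∧ x ≤ N * U := by
    intro x hx
    rw [hS, mem_union, mem_image, mem_image] at hx
    rcases hx with ⟨n, hn, rfl⟩ | ⟨n, hn, rfl⟩
    · rw [mem_Icc] at hn
      obtain ⟨e1, e2, e3⟩ := hp n hn.1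
      exact ⟨e1, (hpair _ e1 _ e2 n hn.1 hn.2 e3).trans (Nat.mul_le_mul_right _ hn.2)⟩
    · rw [mem_Icc] at hn
      obtain ⟨e1, e2, e3⟩ := hp n hn.1
      refine ⟨e2, ?_⟩
      have := (hpair _ e1 _ e2 n hn.1 hn.2 e3).trans (Nat.mul_le_mul_right _ hn.2)
      omega
  have hms : (ms S N).card = 0 := by
    rw [card_eq_zero, ms, filter_eq_empty_iff]
    intro n hn
    push Not
    have hn' := mem_Icc.mp hn
    obtain ⟨e1, e2, e3⟩ := hp n hn'.1
    exact ⟨_, mem_union_left _ (mem_image_of_mem _ hn), _,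
      mem_union_right _ (mem_image_of_mem _ hn), e3⟩
  have hk := h2 A N U S hA hU1 hpair hSA
  set k : ℕ := S.card with hkdef
  rcases h1 S N (sid_of_pds hA fun x hx => (hSA x hx).1) hN with h | h
  · omega
  · rw [hms, add_zero] at h
    have h5 : N ^ 3 ≤ 4096 * k ^ 5 := by
      calc N ^ 3 ≤ 4096 * k ^ 4 * k := h
        _ = 4096 * k ^ 5 := by ring
    have h5' : (N : ℝ) ^ 3 ≤ 4096 * (k : ℝ) ^ 5 := by exact_mod_cast h5
    have h6 : (k : ℝ) ≤ 3 / 32 * (N : ℝ) ^ (3 / 5 : ℝ) := by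
      have h7 : ((Nat.log 2 (N * U) : ℕ) : ℝ) ≤ 2 * Real.log N / Real.log 2 := by
        have h8 : ((Nat.log 2 (N * U) : ℕ) : ℝ) ≤ Real.logb 2 ((N * U : ℕ) : ℝ) :=
          Real.natLog_le_logb _ _
        refine h8.trans ?_
        rw [Real.logb]
        refine div_le_div_of_nonneg_right ?_ (Real.log_nonneg (by norm_num))
        push_cast
        rw [Real.log_mul hN0.ne' (by exact_mod_cast (by omega : U ≠ 0))]
        have h9 : Real.log U ≤ Real.log N :=
          Real.log_le_log (by exact_mod_cast hU1) hUN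
        linarith
      have hl2 : (0.69 : ℝ) < Real.log 2 := by
        have := Real.log_two_gt_d9
        linarith
      have h10 : 2 * Real.log N / Real.log 2 + 1 ≤ 3 * Real.log N := by
        have h11 : 2 * Real.log N / Real.log 2 ≤ 2 * Real.log N / 0.69 :=
          div_le_div_of_nonneg_left (by linarith) (by norm_num) hl2.le
        have h12 : 2 * Real.log N / 0.69 + 1 ≤ 3 * Real.log N := by
          rw [div_add_one (by norm_num), div_le_iff₀ (by norm_num)]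
          nlinarith
        linarith
      have hk' : (k : ℝ) ≤ U * (((Nat.log 2 (N * U) : ℕ) : ℝ) + 1) := by exact_mod_cast hk
      have hU0 : (0 : ℝ) ≤ U := Nat.cast_nonneg _
      calc (k : ℝ) ≤ U * (((Nat.log 2 (N * U) : ℕ) : ℝ) + 1) := hk'
        _ ≤ U * (3 * Real.log N) := mul_le_mul_of_nonneg_left (by linarith) hU0
        _ ≤ 2 * y * (3 * Real.log N) := mul_le_mul_of_nonneg_right hU2 (by linarith)
        _ = 3 / 32 * (Real.log N * f) := by rw [hy]; ring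
        _ = 3 / 32 * (N : ℝ) ^ (3 / 5 : ℝ) := by rw [hlf]
    have h7 : (k : ℝ) ^ 5 ≤ (3 / 32 * (N : ℝ) ^ (3 / 5 : ℝ)) ^ 5 :=
      pow_le_pow_left₀ (Nat.cast_nonneg _) h6 5
    have h8 : ((N : ℝ) ^ (3 / 5 : ℝ)) ^ 5 = (N : ℝ) ^ 3 := by
      rw [← Real.rpow_natCast, ← Real.rpow_mul hN0.le, ← Real.rpow_natCast]
      norm_num
    rw [mul_pow, h8] at h7
    have h9 : (0 : ℝ) < (N : ℝ) ^ 3 := by positivity
    norm_num at h7
    nlinarith

end Pool.Agent.H24.P35
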