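import Pool.Agent.H24.P35.Targets

/-!
# MP_35c1fe_nt, row F2
-/

set_option autoImplicit false

namespace Pool.Agent.H24.P35

open Finset Filter Pool.Agent.H88.PD

lemma sid_of_pds {A : Set ℕ} (hA : IsPerfectDifferenceSet A) {S : Finset ℕ}
    (hS : ∀ x ∈ S, x ∈ A) : Sid S := by
  intro a ha b hb c hc d hd n hn h1 h2
  exact (pds_unique hA (hS a ha) (hS b hb) (hS c hc) (hS d hd) hn h1 h2).1

theorem pf_F2 (h1 : T_MAIN) : T_F2 := by
  classical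
  refine ⟨1 / 2 ^ 17, by positivity, ?_⟩
  intro A hA N X hN hNX hX
  set S : Finset ℕ := (Icc 1 X).filter (fun x => x ∈ A) with hS
  have hSA : ∀ x ∈ S, x ∈ A ∧ x ≤ X := by
    intro x hx
    rw [hS, mem_filter, mem_Icc] at hx
    exact ⟨hx.2, hx.1.2⟩
  set k : ℕ := S.card with hk
  set E : ℕ := (ms S N).card with hE
  set B : Set ℕ := {n : ℕ | 1 ≤ n ∧ n ≤ N ∧ ∃ a ∈ A, ∃ b ∈ A, a = b + n ∧ X < a} with hB
  have hEB : E ≤ B.ncard := by
    rw [hE, ← Set.ncard_coe_finset]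
    apply Set.ncard_le_ncard
    swap
    · exact (Set.finite_Icc 1 N).subset fun n hn => ⟨hn.1, hn.2.1⟩
    intro n hn
    have hn := Finset.mem_coe.1 hn
    rw [ms, mem_filter, mem_Icc] at hn
    obtain ⟨⟨hn1, hnN⟩, hn2⟩ := hn
    obtain ⟨⟨a, b⟩, ⟨ha, hb, hab⟩, _⟩ := hA.2 n hn1
    refine ⟨hn1, hnN, a, ha, b, hb, hab, ?_⟩
    by_contra hlt
    push Not at hlt
    apply hn2
    have hb1 := hA.1 b hb
    have ha1 := hA.1 a ha
    simp only at hab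
    exact ⟨a, by rw [hS, mem_filter, mem_Icc]; exact ⟨⟨ha1, hlt⟩, ha⟩, b,
      by rw [hS, mem_filter, mem_Icc]; exact ⟨⟨hb1, by omega⟩, hb⟩, hab⟩
  have hN0 : (0 : ℝ) < N := by exact_mod_cast (by omega : 0 < N)
  have hX0 : (0 : ℝ) < X := by exact_mod_cast (by omega : 0 < X)
  have hNX' : (N : ℝ) ≤ X := by exact_mod_cast hNX
  have hEB' : (E : ℝ) ≤ B.ncard := by exact_mod_cast hEB
  refine le_trans ?_ hEB'
  rw [div_le_iff₀ (by positivity)]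
  have hk2 : k ^ 2 ≤ 4 * X := by
    have h2 := card_sidon hA S X hSA
    rw [← hk] at h2
    have h8 : 8 ≤ X := by omega
    by_contra hcon
    push Not at hcon
    have h3 : 6 ≤ k := by
      by_contra h
      have : k ≤ 5 := by omega
      nlinarith
    have h4 : k * k ≤ 2 * X + 1 + k := by omega
    nlinarith
  have hk4 : k ^ 4 ≤ 16 * X ^ 2 := by
    calc k ^ 4 = (k ^ 2) ^ 2 := by ring
      _ ≤ (4 * X) ^ 2 := Nat.pow_le_pow_left hk2 2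
      _ = 16 * X ^ 2 := by ring
  rcases h1 S N (sid_of_pds hA fun x hx => (hSA x hx).1) hN with h | h
  · -- many missing differences
    have h' : (N : ℝ) ≤ 16 * E := by exact_mod_cast h
    have hE0 : (0 : ℝ) ≤ E := Nat.cast_nonneg _
    have h2 : (N : ℝ) ^ 2 ≤ (X : ℝ) ^ 2 := pow_le_pow_left₀ hN0.le hNX' 2
    calc 1 / 2 ^ 17 * (N : ℝ) ^ 3 = 1 / 2 ^ 17 * N * (N : ℝ) ^ 2 := by ring
      _ ≤ 1 / 2 ^ 17 * N * (X : ℝ) ^ 2 := mul_le_mul_of_nonneg_left h2 (by positivity)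
      _ ≤ E * (X : ℝ) ^ 2 := by
        refine mul_le_mul_of_nonneg_right ?_ (by positivity)
        linarith
  · by_cases hkE : k ≤ E
    · have h2 : N ^ 3 ≤ 2 ^ 17 * (X ^ 2 * E) := by
        calc N ^ 3 ≤ 4096 * k ^ 4 * (k + E) := h
          _ ≤ 4096 * (16 * X ^ 2) * (E + E) := by gcongr
          _ = 2 ^ 17 * (X ^ 2 * E) := by ring
      have h3 : (N : ℝ) ^ 3 ≤ 2 ^ 17 * ((X : ℝ) ^ 2 * E) := by exact_mod_cast h2
      rw [one_div, inv_mul_le_iff₀ (by positivity)]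
      linarith
    · exfalso
      push Not at hkE
      have h2 : N ^ 3 ≤ 2 ^ 13 * k ^ 5 := by
        calc N ^ 3 ≤ 4096 * k ^ 4 * (k + E) := h
          _ ≤ 4096 * k ^ 4 * (k + k) := by gcongr
          _ = 2 ^ 13 * k ^ 5 := by ring
      -- square everything
      have h3 : N ^ 6 ≤ 2 ^ 26 * (4 * X) ^ 5 := by
        calc N ^ 6 = (N ^ 3) ^ 2 := by ring
          _ ≤ (2 ^ 13 * k ^ 5) ^ 2 := Nat.pow_le_pow_left h2 2
          _ = 2 ^ 26 * (k ^ 2) ^ 5 := by ring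
          _ ≤ 2 ^ 26 * (4 * X) ^ 5 := by gcongr
      have h4 : (N : ℝ) ^ 6 ≤ 2 ^ 36 * (X : ℝ) ^ 5 := by
        have : N ^ 6 ≤ 2 ^ 36 * X ^ 5 := by
          calc N ^ 6 ≤ 2 ^ 26 * (4 * X) ^ 5 := h3
            _ = 2 ^ 36 * X ^ 5 := by ring
        exact_mod_cast this
      have h5 : (X : ℝ) ^ 5 ≤ (1 / 2 ^ 17 * (N : ℝ) ^ (6 / 5 : ℝ)) ^ 5 :=
        pow_le_pow_left₀ hX0.le hX 5
      have h6 : ((N : ℝ) ^ (6 / 5 : ℝ)) ^ 5 = (N : ℝ) ^ 6 := by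
        rw [← Real.rpow_natCast, ← Real.rpow_mul hN0.le, ← Real.rpow_natCast]
        norm_num
      rw [mul_pow, h6] at h5
      have h7 : (0 : ℝ) < (N : ℝ) ^ 6 := by positivity
      have h8 : (N : ℝ) ^ 6 ≤ 2 ^ 36 * ((1 / 2 ^ 17) ^ 5 * (N : ℝ) ^ 6) :=
        h4.trans (mul_le_mul_of_nonneg_left h5 (by positivity))
      norm_num at h8
      linarith

end Pool.Agent.H24.P35
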