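import Pool.Agent.H24.P35.Targets

/-!
# MP_35c1fe_nt, row GAP
-/

set_option autoImplicit false

namespace Pool.Agent.H24.P35

open Finset Filter Pool.Agent.H88.PD

theorem pf_GAP : T_GAP := by
  classical
  intro A N U T hA hU hpair hT
  have hblock : ∀ i : ℕ, (T.filter (fun x => Nat.log 2 x = i)).card ≤ U := by
    intro i
    set Ti := T.filter (fun x => Nat.log 2 x = i) with hTi
    have hmem : ∀ x ∈ Ti, x ∈ T ∧ 2 ^ i ≤ x ∧ x < 2 ^ (i + 1) := by
      intro x hx
      rw [hTi, mem_filter] at hx
      have hx1 : 1 ≤ x := hA.1 x (hT x hx.1).1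
      refine ⟨hx.1, ?_, ?_⟩
      · rw [← hx.2]
        exact Nat.pow_log_le_self 2 (by omega)
      · rw [← hx.2]
        exact Nat.lt_pow_succ_log_self (by norm_num) x
    have hp : 1 ≤ 2 ^ i := Nat.one_le_two_pow
    set g : ℕ := (2 ^ i + U - 1) / U with hg
    have hg1 : 1 ≤ g := by
      rw [hg, Nat.one_le_div_iff (by omega)]
      omega
    have hgU : 2 ^ i ≤ g * U := by
      have h1 := Nat.div_add_mod (2 ^ i + U - 1) U
      have h2 := Nat.mod_lt (2 ^ i + U - 1) (show 0 < U by omega)
      rw [← hg, mul_comm] at h1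
      omega
    have h1 := card_le_of_gap Ti (2 ^ i) (2 ^ i - 1) g hg1
      (fun x hx => by
        obtain ⟨_, h2, h3⟩ := hmem x hx
        rw [pow_succ] at h3
        omega)
      (fun x hx z hz hxz => by
        obtain ⟨hx0, hx1, hx2⟩ := hmem x hx
        obtain ⟨hz0, hz1, hz2⟩ := hmem z hz
        obtain ⟨hxA, hxN⟩ := hT x hx0
        obtain ⟨hzA, hzN⟩ := hT z hz0
        have h3 : 2 ^ i ≤ (z - x) * U := by
          by_cases hn : z - x ≤ N
          · have := hpair z hzA x hxA (z - x) (by omega) hn (by omega)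
            omega
          · push Not at hn
            calc 2 ^ i ≤ x := hx1
              _ ≤ N * U := hxN
              _ ≤ (z - x) * U := Nat.mul_le_mul_right _ hn.le
        by_contra hlt
        push Not at hlt
        have h4 : (z - x) ≤ g - 1 := by omega
        have h5 : (g - 1) * U < 2 ^ i := by
          have h6 := Nat.div_mul_le_self (2 ^ i + U - 1) U
          rw [← hg] at h6
          obtain ⟨g', hg'⟩ : ∃ g', g = g' + 1 := ⟨g - 1, by omega⟩
          rw [hg'] at h6 ⊢
          rw [Nat.add_sub_cancel]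
          have e1 : (g' + 1) * U = g' * U + U := by ring
          rw [e1] at h6
          omega
        have h6 := Nat.mul_le_mul_right U h4
        omega)
    have h2 : (2 ^ i - 1) / g < U := by
      rw [Nat.div_lt_iff_lt_mul (by omega)]
      rw [mul_comm]
      omega
    omega
  have hcov : T ⊆ (range (Nat.log 2 (N * U) + 1)).biUnion
      (fun i => T.filter (fun x => Nat.log 2 x = i)) := by
    intro x hx
    rw [mem_biUnion]
    refine ⟨Nat.log 2 x, ?_, ?_⟩
    · rw [mem_range]
      have := Nat.log_mono_right (b := 2) (hT x hx).2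
      omega
    · rw [mem_filter]
      exact ⟨hx, rfl⟩
  calc T.card ≤ _ := card_le_card hcov
    _ ≤ (range (Nat.log 2 (N * U) + 1)).card * U := card_biUnion_le_card_mul _ _ _
        (fun i _ => hblock i)
    _ = U * (Nat.log 2 (N * U) + 1) := by rw [card_range, mul_comm]

end Pool.Agent.H24.P35
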