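import Pool.Agent.H24.P35.Targets

/-!
# MP_35c1fe_nt, row MAIN
-/

set_option autoImplicit false

namespace Pool.Agent.H24.P35

open Finset Filter Pool.Agent.H88.PD

lemma rep_card (S : Finset ℕ) (N : ℕ) : N ≤ S.card ^ 2 + (ms S N).card := by
  classical
  have h1 : ((Icc 1 N).filter (fun n => ∃ a ∈ S, ∃ b ∈ S, a = b + n)).card ≤ S.card ^ 2 := by
    have h2 : (Icc 1 N).filter (fun n => ∃ a ∈ S, ∃ b ∈ S, a = b + n) ⊆
        (S ×ˢ S).image (fun p => p.1 - p.2) := by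
      intro n hn
      rw [mem_filter] at hn
      obtain ⟨_, a, ha, b, hb, hab⟩ := hn
      rw [mem_image]
      exact ⟨(a, b), mem_product.mpr ⟨ha, hb⟩, by simp only; omega⟩
    calc _ ≤ _ := card_le_card h2
      _ ≤ (S ×ˢ S).card := card_image_le
      _ = S.card ^ 2 := by rw [card_product]; ring
  have h3 : ((Icc 1 N).filter (fun n => ∃ a ∈ S, ∃ b ∈ S, a = b + n)).card +
      (ms S N).card = (Icc 1 N).card := card_filter_add_card_filter_not _
  rw [Nat.card_Icc] at h3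
  omega

theorem pf_MAIN (h1 : T_PDI) (h2 : T_COR) (h3 : T_CN0) (h4 : T_CNL) (h5 : T_CNJ) : T_MAIN := by
  classical
  intro S N hS hN
  by_contra hcon
  push Not at hcon
  obtain ⟨hE, hlt⟩ := hcon
  have hrep := rep_card S N
  set k : ℕ := S.card with hk
  set E : ℕ := (ms S N).card with hEdef
  obtain ⟨L, hL⟩ : ∃ L, L = N / 2 := ⟨_, rfl⟩
  have hL1 : 2 * L ≤ N := by omega
  have hL2 : 7 * N ≤ 16 * L := by omega
  have hk1 : 1 ≤ k := by
    by_contra h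
    have : k = 0 := by omega
    rw [this] at hrep
    simp at hrep
    omega
  by_cases hc : L < 4 * (k + E)
  · -- few elements cannot happen
    have e1 : 7 * N < 64 * (k + E) := by omega
    have e2 : 15 * N ≤ 16 * k ^ 2 := by omega
    have e3 : (15 * N) ^ 2 ≤ (16 * k ^ 2) ^ 2 := Nat.pow_le_pow_left e2 2
    have e4 : (15 * N) ^ 2 * (7 * N) ≤ (16 * k ^ 2) ^ 2 * (64 * (k + E)) :=
      Nat.mul_le_mul e3 e1.le
    have e5 : 1575 * N ^ 3 ≤ 16384 * (k ^ 4 * (k + E)) := by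
      calc 1575 * N ^ 3 = (15 * N) ^ 2 * (7 * N) := by ring
        _ ≤ (16 * k ^ 2) ^ 2 * (64 * (k + E)) := e4
        _ = 16384 * (k ^ 4 * (k + E)) := by ring
    have e6 : 4096 * (k ^ 4 * (k + E)) < N ^ 3 := by
      calc 4096 * (k ^ 4 * (k + E)) = 4096 * k ^ 4 * (k + E) := by ring
        _ < N ^ 3 := hlt
    omega
  · push Not at hc
    set M : ℕ := 4 * (k + E) with hM
    have hM0 : 0 < M := by omega
    obtain ⟨J, hJ⟩ : ∃ J, J = Nat.sqrt (L / M) := ⟨_, rfl⟩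
    have hx1 : 1 ≤ L / M := (Nat.one_le_div_iff hM0).mpr hc
    have hJ1 : 1 ≤ J := by
      rw [hJ, Nat.le_sqrt]
      simpa using hx1
    have hJ2 : J ^ 2 ≤ L / M := by rw [hJ]; exact Nat.sqrt_le' _
    have hJ3 : L / M < (J + 1) ^ 2 := by rw [hJ]; exact Nat.lt_succ_sqrt' _
    have hJ4 : J ^ 2 * M ≤ L := (Nat.mul_le_mul_right M hJ2).trans (Nat.div_mul_le_self L M)
    have hJ5 : L < 4 * J ^ 2 * M := by
      have e1 : L / M + 1 ≤ 4 * J ^ 2 := by nlinarith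
      have e2 : L < (L / M + 1) * M := by
        have := Nat.div_add_mod L M
        have h6 := Nat.mod_lt L hM0
        rw [add_mul, one_mul, mul_comm]
        omega
      calc L < (L / M + 1) * M := e2
        _ ≤ 4 * J ^ 2 * M := Nat.mul_le_mul_right M e1
    -- the modulus
    obtain ⟨Q, hQ⟩ : ∃ Q, Q = S.sup id + L + J * L + 1 := ⟨_, rfl⟩
    have hQ0 : NeZero Q := ⟨by omega⟩
    have hQS : ∀ m : ℕ, m ≤ J * L → ∀ s ∈ S, s + L + m ≤ Q := by
      intro m hm s hs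
      have := Finset.le_sup (f := id) hs
      simp only [id] at this
      omega
    have hcor : ∀ m : ℕ, m ≤ J * L → cor (wf S L Q) ((m : ℕ) : ZMod Q) = cn S L m :=
      fun m hm => h2 S L Q m (hQS m hm)
    have hLJ : L ≤ J * L := Nat.le_mul_of_pos_left L hJ1
    have c0 : cor (wf S L Q) 0 = cn S L 0 := by
      have := hcor 0 (Nat.zero_le _)
      simpa using this
    have cL := hcor L hLJ
    have hL0 : (0 : ℝ) < L := by exact_mod_cast (by omega : 0 < L)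
    obtain ⟨c, hc⟩ : ∃ c : ℝ, c = (cn S L 0 : ℝ) := ⟨_, rfl⟩
    have b0 : c ≤ k * L + (L : ℝ) ^ 2 := by
      rw [hc]; exact_mod_cast h3 S L hS
    have bL : (L : ℝ) ^ 2 ≤ (cn S L L : ℝ) + L * E := by
      exact_mod_cast h4 S L N hL1
    have hPD := fun j : ℕ => h1 (ZMod Q) (wf S L Q) ((L : ℕ) : ZMod Q) j
    have hD0 : 0 ≤ c - cn S L L := by
      have := (hPD 0).1
      rw [c0, cL] at this
      rw [hc]; exact this
    have hDle : c - cn S L L ≤ L * ((k : ℝ) + E) := by nlinarith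
    have hER : (16 : ℝ) * E ≤ N := by exact_mod_cast hE.le
    have hLR : (7 : ℝ) * N ≤ 16 * L := by exact_mod_cast hL2
    have hE7 : (7 : ℝ) * E ≤ L := by linarith
    have hc0 : 6 / 7 * (L : ℝ) ^ 2 ≤ c := by nlinarith
    have hJM : (J : ℝ) ^ 2 * (4 * ((k : ℝ) + E)) ≤ L := by exact_mod_cast hJ4
    have hj : ∀ j ∈ Icc 1 J, (L : ℝ) ^ 2 / 2 ≤ cn S L (j * L) := by
      intro j hj
      rw [mem_Icc] at hj
      have e1 := (hPD j).2
      have e2 : j • ((L : ℕ) : ZMod Q) = ((j * L : ℕ) : ZMod Q) := by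
        rw [nsmul_eq_mul]; push_cast; rfl
      rw [e2, c0, cL, hcor (j * L) (Nat.mul_le_mul_right L hj.2), ← hc] at e1
      have e3 : (j : ℝ) ^ 2 ≤ (J : ℝ) ^ 2 := by
        have : (j : ℝ) ≤ J := by exact_mod_cast hj.2
        exact pow_le_pow_left₀ (Nat.cast_nonneg _) this 2
      have e4 : (j : ℝ) ^ 2 * (c - cn S L L) ≤ (J : ℝ) ^ 2 * (L * ((k : ℝ) + E)) :=
        mul_le_mul e3 hDle hD0 (by positivity)
      have e5 : (J : ℝ) ^ 2 * (L * ((k : ℝ) + E)) ≤ (L : ℝ) ^ 2 / 4 := by nlinarith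
      nlinarith
    have hsum : (J : ℝ) * ((L : ℝ) ^ 2 / 2) ≤ L * (k : ℝ) ^ 2 := by
      have e1 : ((∑ j ∈ Icc 1 J, cn S L (j * L) : ℕ) : ℝ) ≤ ((L * S.card ^ 2 : ℕ) : ℝ) := by
        exact_mod_cast h5 S L J
      have e2 : (J : ℝ) * ((L : ℝ) ^ 2 / 2) ≤ ∑ j ∈ Icc 1 J, (cn S L (j * L) : ℝ) := by
        calc (J : ℝ) * ((L : ℝ) ^ 2 / 2) = ∑ j ∈ Icc 1 J, (L : ℝ) ^ 2 / 2 := by
              rw [sum_const, Nat.card_Icc, nsmul_eq_mul]; simp
          _ ≤ _ := sum_le_sum hj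
      push_cast at e1
      linarith
    have hJL : (J : ℝ) * L ≤ 2 * (k : ℝ) ^ 2 := by
      have : (L : ℝ) * (J * L) ≤ L * (2 * (k : ℝ) ^ 2) := by nlinarith
      exact le_of_mul_le_mul_left this hL0
    have hJL' : J * L ≤ 2 * k ^ 2 := by exact_mod_cast hJL
    have hsq : (J * L) ^ 2 ≤ (2 * k ^ 2) ^ 2 := Nat.pow_le_pow_left hJL' 2
    have f1 : L ^ 3 ≤ 64 * (k ^ 4 * (k + E)) := by
      calc L ^ 3 = L ^ 2 * L := by ring
        _ ≤ L ^ 2 * (4 * J ^ 2 * M) := Nat.mul_le_mul_left _ hJ5.le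
        _ = 16 * (k + E) * (J * L) ^ 2 := by rw [hM]; ring
        _ ≤ 16 * (k + E) * (2 * k ^ 2) ^ 2 := Nat.mul_le_mul_left _ hsq
        _ = 64 * (k ^ 4 * (k + E)) := by ring
    have f2 : (7 * N) ^ 3 ≤ (16 * L) ^ 3 := Nat.pow_le_pow_left hL2 3
    have f3 : 343 * N ^ 3 ≤ 4096 * L ^ 3 := by
      calc 343 * N ^ 3 = (7 * N) ^ 3 := by ring
        _ ≤ (16 * L) ^ 3 := f2
        _ = 4096 * L ^ 3 := by ring
    have f4 : 4096 * (k ^ 4 * (k + E)) < N ^ 3 := by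
      calc 4096 * (k ^ 4 * (k + E)) = 4096 * k ^ 4 * (k + E) := by ring
        _ < N ^ 3 := hlt
    omega

end Pool.Agent.H24.P35
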