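import Pool.Agent.H24.P35.F1
import Pool.Agent.H24.P35.GAP
import Pool.Agent.H24.P35.CNJ
import Pool.Agent.H24.P35.CNL
import Pool.Agent.H24.P35.COR
import Pool.Agent.H24.P35.MAIN
import Pool.Agent.H17.P35.PDI
import Pool.Agent.H88.PD.Dens

/-!
# MP_35c1fe_nt: assembly
-/

set_option autoImplicit false

namespace Pool.Agent.H24.P35

open Finset Filter Pool.Agent.H88.PD

theorem main : T_MAIN := pf_MAIN Pool.Agent.H17.P35.pf_PDI pf_COR pf_CN0 pf_CNL pf_CNJ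

theorem f1 : T_F1 := pf_F1 main pf_GAP

theorem f2 : T_F2 := pf_F2 main

theorem f3 : T_F3 := pf_F3 f1

/-- positive upper density of the `n` with `a_n > N^β` -/
theorem dens : ∀ β : ℝ, β < 2 → ∃ δ : ℝ, 0 < δ ∧ ∀ A : Set ℕ, IsPerfectDifferenceSet A →
    ∃ᶠ N : ℕ in atTop, δ * N ≤
      {n : ℕ | 1 ≤ n ∧ n ≤ N ∧ ∃ a ∈ A, ∃ b ∈ A, a = b + n ∧ (N : ℝ) ^ β < a}.ncard := by
  classical
  intro β hβ
  obtain ⟨δ, hδ, hall⟩ := no_hyp β hβ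
  refine ⟨δ, hδ, ?_⟩
  intro A hA
  have hex : ∀ d : ℕ, ∃ p : ℕ × ℕ, 1 ≤ d → p.1 ∈ A ∧ p.2 ∈ A ∧ p.1 = p.2 + d := by
    intro d
    by_cases hd : 1 ≤ d
    · obtain ⟨p, hp, _⟩ := hA.2 d hd
      exact ⟨p, fun _ => hp⟩
    · exact ⟨(0, 0), fun h => absurd h hd⟩
  choose p hp using hex
  have h1 := hall A (fun d => (p d).1) (fun d => (p d).2) hA hp
  rw [Hyp, not_eventually] at h1
  refine (h1.and_eventually (eventually_ge_atTop 1)).mono ?_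
  rintro N ⟨h2, hN1⟩
  push Not at h2
  have h3 : ((Finset.Icc 1 N).filter (fun n => (p n).1 ≤ ⌊(N : ℝ) ^ β⌋₊)).card +
      ((Finset.Icc 1 N).filter (fun n => ¬ (p n).1 ≤ ⌊(N : ℝ) ^ β⌋₊)).card =
      (Finset.Icc 1 N).card := Finset.card_filter_add_card_filter_not _
  rw [Nat.card_Icc, Nat.add_sub_cancel] at h3
  have h4 : ((Finset.Icc 1 N).filter (fun n => ¬ (p n).1 ≤ ⌊(N : ℝ) ^ β⌋₊)).card ≤
      {n : ℕ | 1 ≤ n ∧ n ≤ N ∧ ∃ a ∈ A, ∃ b ∈ A, a = b + n ∧ (N : ℝ) ^ β < a}.ncard := by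
    rw [← Set.ncard_coe_finset]
    apply Set.ncard_le_ncard
    swap
    · exact (Set.finite_Icc 1 N).subset fun n hn => ⟨hn.1, hn.2.1⟩
    intro n hn
    have hn := Finset.mem_coe.1 hn
    rw [Finset.mem_filter, Finset.mem_Icc] at hn
    obtain ⟨e1, e2, e3⟩ := hp n hn.1.1
    refine ⟨hn.1.1, hn.1.2, _, e1, _, e2, e3, ?_⟩
    have := hn.2
    rw [not_le, Nat.floor_lt (by positivity)] at this
    exact this
  have h3' : (cnt (fun d => (p d).1) N ⌊(N : ℝ) ^ β⌋₊ : ℝ) +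
      ((Finset.Icc 1 N).filter (fun n => ¬ (p n).1 ≤ ⌊(N : ℝ) ^ β⌋₊)).card = N := by
    exact_mod_cast h3
  have h4' : (((Finset.Icc 1 N).filter (fun n => ¬ (p n).1 ≤ ⌊(N : ℝ) ^ β⌋₊)).card : ℝ) ≤
      {n : ℕ | 1 ≤ n ∧ n ≤ N ∧ ∃ a ∈ A, ∃ b ∈ A, a = b + n ∧ (N : ℝ) ^ β < a}.ncard := by
    exact_mod_cast h4
  linarith

end Pool.Agent.H24.P35
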