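import Pool.Agent.H88.PD.Basic

/-!
# MP_35c1fe_nt: perfect difference sets at every scale, exponent 3/5, targets
-/

set_option autoImplicit false

namespace Pool.Agent.H24.P35

open Finset Filter Pool.Agent.H88.PD

noncomputable section

/-- autocorrelation on a finite abelian group -/
def cor {G : Type} [AddCommGroup G] [Fintype G] (f : G → ℝ) (x : G) : ℝ := ∑ y, f y * f (y + x)

/-- the number of elements of `S` in the window of length `L` at `y`, modulo `Q` -/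
def wf (S : Finset ℕ) (L Q : ℕ) (y : ZMod Q) : ℝ :=
  (((S ×ˢ range L).filter (fun p => ((p.1 : ℕ) : ZMod Q) = y + ((p.2 : ℕ) : ZMod Q))).card : ℝ)

/-- the correlation at the lag `m` as a number of quadruples -/
def cn (S : Finset ℕ) (L m : ℕ) : ℕ :=
  (((S ×ˢ range L) ×ˢ (S ×ˢ range L)).filter
    (fun p => p.2.1 + p.1.2 = p.1.1 + p.2.2 + m)).card

/-- Sidon sets: every positive difference occurs at most once -/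
def Sid (S : Finset ℕ) : Prop := ∀ a ∈ S, ∀ b ∈ S, ∀ c ∈ S, ∀ d ∈ S, ∀ n : ℕ, 1 ≤ n →
  a = b + n → c = d + n → a = c

/-- the differences up to `N` which do not occur -/
def ms (S : Finset ℕ) (N : ℕ) : Finset ℕ :=
  (Icc 1 N).filter (fun n => ¬ ∃ a ∈ S, ∃ b ∈ S, a = b + n)

def T_PDI : Prop := ∀ (G : Type) [AddCommGroup G] [Fintype G] (f : G → ℝ) (x : G) (j : ℕ),
  0 ≤ cor f 0 - cor f x ∧ cor f 0 - cor f (j • x) ≤ (j : ℝ) ^ 2 * (cor f 0 - cor f x)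

def T_COR : Prop := ∀ (S : Finset ℕ) (L Q m : ℕ) [NeZero Q], (∀ s ∈ S, s + L + m ≤ Q) →
  cor (wf S L Q) ((m : ℕ) : ZMod Q) = cn S L m

def T_CN0 : Prop := ∀ (S : Finset ℕ) (L : ℕ), Sid S → cn S L 0 ≤ S.card * L + L ^ 2

def T_CNL : Prop := ∀ (S : Finset ℕ) (L N : ℕ), 2 * L ≤ N → L ^ 2 ≤ cn S L L + L * (ms S N).card

def T_CNJ : Prop := ∀ (S : Finset ℕ) (L J : ℕ),
  ∑ j ∈ Icc 1 J, cn S L (j * L) ≤ L * S.card ^ 2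

def T_MAIN : Prop := ∀ (S : Finset ℕ) (N : ℕ), Sid S → 8 ≤ N →
  N ≤ 16 * (ms S N).card ∨ N ^ 3 ≤ 4096 * S.card ^ 4 * (S.card + (ms S N).card)

def T_GAP : Prop := ∀ (A : Set ℕ) (N U : ℕ) (T : Finset ℕ), IsPerfectDifferenceSet A → 1 ≤ U →
  (∀ a ∈ A, ∀ b ∈ A, ∀ n : ℕ, 1 ≤ n → n ≤ N → a = b + n → a ≤ n * U) →
  (∀ x ∈ T, x ∈ A ∧ x ≤ N * U) → T.card ≤ U * (Nat.log 2 (N * U) + 1)

def T_F1 : Prop := ∀ A : Set ℕ, IsPerfectDifferenceSet A → ∀ᶠ N : ℕ in atTop,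
  ∃ n, 1 ≤ n ∧ n ≤ N ∧ ∃ a ∈ A, ∃ b ∈ A, a = b + n ∧
    (1 / 64 : ℝ) * n * ((N : ℝ) ^ (3 / 5 : ℝ) / Real.log N) ≤ a

def T_F2 : Prop := ∃ c : ℝ, 0 < c ∧ ∀ A : Set ℕ, IsPerfectDifferenceSet A →
  ∀ N X : ℕ, 8 ≤ N → N ≤ X → (X : ℝ) ≤ c * (N : ℝ) ^ (6 / 5 : ℝ) →
  c * (N : ℝ) ^ 3 / (X : ℝ) ^ 2 ≤
    {n : ℕ | 1 ≤ n ∧ n ≤ N ∧ ∃ a ∈ A, ∃ b ∈ A, a = b + n ∧ X < a}.ncard

def T_F3 : Prop := ∀ G : ℕ → ℝ, Monotone G →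
  (∃ C : ℝ, ∃ᶠ n : ℕ in atTop, G n ≤ C * ((n : ℝ) ^ (3 / 5 : ℝ) / Real.log n)) →
  ∀ A : Set ℕ, IsPerfectDifferenceSet A → ∃ c : ℝ, 0 < c ∧
    {n : ℕ | 1 ≤ n ∧ ∃ a ∈ A, ∃ b ∈ A, a = b + n ∧ c * n * G n ≤ a}.Infinite

end

end Pool.Agent.H24.P35
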